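import Mathlib
import Pool.Agent.Helper544.Net4h

noncomputable section
open scoped Classical

namespace Pool.Agent.Results.MP_b67b84_gt.Unbounded

/-- A geodesic net in the Euclidean plane (identified with the complex numbers): a finite connected
graph with straight edges of multiplicity one, with a prescribed set `U` of unbalanced vertices. -/
structure GeodesicNet where
  /-- all vertices -/
  V : Finset ℂ
  /-- the unbalanced vertices -/
  U : Finset ℂ
  /-- `Adj a b`: the straight segment from `a` to `b` is an edge -/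
  Adj : ℂ → ℂ → Prop
  U_subset : U ⊆ V
  symm : ∀ a b, Adj a b → Adj b a
  /-- edges join two distinct vertices -/
  edge_ends : ∀ a b, Adj a b → a ∈ V ∧ b ∈ V ∧ a ≠ b
  /-- two distinct edges meet only at common endpoints -/
  edges_meet : ∀ a b c d, Adj a b → Adj c d → s(a, b) ≠ s(c, d) →
    ∀ z ∈ segment ℝ a b, z ∈ segment ℝ c d → (z = a ∨ z = b) ∧ (z = c ∨ z = d)
  /-- no vertex lies inside an edge -/
  no_vertex_inside : ∀ a b, Adj a b → ∀ c ∈ V, c ∉ openSegment ℝ a b
  connected : ∀ a ∈ V, ∀ b ∈ V, Relation.ReflTransGen Adj a b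
  /-- the balancing condition at every vertex outside `U` -/
  balanced : ∀ v ∈ V, v ∉ U → ∑ w ∈ V.filter (fun w => Adj v w), (w - v) / (‖w - v‖ : ℂ) = 0
  /-- balanced vertices have degree at least three -/
  degree : ∀ v ∈ V, v ∉ U → 3 ≤ (V.filter (fun w => Adj v w)).card
  /-- no edge joins two unbalanced vertices -/
  no_boundary_edge : ∀ a ∈ U, ∀ b ∈ U, ¬ Adj a b

open Pool.Agent.Helper544.Planar Pool.Agent.Helper544.Chain4 Pool.Agent.Helper544.Net4

/-- the four unbalanced vertices: corners of a fixed rectangle -/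
def corner (q : Bool × Bool) : ℂ := P (sg q.1) (sg q.2 * b)

theorem corner_inj : Function.Injective corner := by
  rintro ⟨a, c⟩ ⟨a', c'⟩ hq
  obtain ⟨h1, h2⟩ := P_inj hq
  have e1 := b_eq
  have q1 := sg_pos_inj (a := a) (a' := a') (x := 1) (x' := 1) one_pos one_pos (by simpa using h1)
  have q2 := sg_pos_inj (a := c) (a' := c') (x := b) (x' := b) (by linarith) (by linarith) h2
  rw [q1.1, q2.1]

def US : Finset ℂ := Finset.univ.image corner

theorem US_card : US.card = 4 := by
  unfold US
  rw [Finset.card_image_of_injective _ corner_inj]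
  rfl

theorem exists_net (M : ℕ) : ∃ G : GeodesicNet, G.U = US ∧ M ≤ (G.V \ G.U).card := by
  obtain ⟨p, h, S⟩ := exists_Sys (M + 1) (by omega)
  have g := good_of_Sys S
  let D := drw g
  have hpos : ∀ x, D.pos x = pos p h x := fun x => rfl
  have hcor : ∀ a c, pos p h (.S a c : Vx M) = corner (a, c) := fun a c => rfl
  have hW : ∀ x y, D.W x y ≤ 1 := (edges g).W_le
  have hm1 : ∀ a b, D.m a b ≤ 1 := D.m_le hW
  have hUS : ∀ z, z ∈ US ↔ ∃ a c, z = pos p h (.S a c : Vx M) := by
    intro z
    unfold US
    simp only [Finset.mem_image, Finset.mem_univ, true_and, Prod.exists]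
    constructor
    · rintro ⟨a, c, rfl⟩; exact ⟨a, c, rfl⟩
    · rintro ⟨a, c, rfl⟩; exact ⟨a, c, rfl⟩
  have hnotU : ∀ x : Vx M, (∀ a c, x ≠ .S a c) → pos p h x ∉ US := by
    intro x hx hmem
    obtain ⟨a, c, hac⟩ := (hUS _).1 hmem
    exact hx a c (pos_inj g hac)
  have hnotS : ∀ x : Vx M, pos p h x ∉ US → ∀ a c, x ≠ .S a c := by
    intro x hx a c hxa
    exact hx ((hUS _).2 ⟨a, c, by rw [hxa]⟩)
  have hbal : ∀ v ∈ D.V, v ∉ US → ∑ w ∈ D.V, (D.m v w : ℂ) * uv v w = 0 := by
    intro v hv hvU
    by_cases hvr : v ∈ Set.range D.pos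
    · obtain ⟨x, rfl⟩ := hvr
      rw [hpos] at hvU ⊢
      have hx := hnotS x hvU
      rw [imb g x]
      cases x with
      | S a c => exact absurd rfl (hx a c)
      | v => exact bal_v g S.e0
      | G => exact bal_G g
      | Y k a => exact bal_Y S g k a
      | T k a c => exact bal_T g k a c
      | R k a => exact bal_R g k a
    · exact D.imb_cross hv hvr
  have hdeg : ∀ v ∈ D.V, v ∉ US → 3 ≤ (D.V.filter (fun w => D.m v w ≠ 0)).card := by
    intro v hv hvU
    by_cases hvr : v ∈ Set.range D.pos
    · obtain ⟨x, rfl⟩ := hvr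
      rw [hpos] at hvU
      exact le_trans (deg g x (hnotS x hvU)) (D.degree_pos x)
    · exact le_trans (by norm_num) (D.degree_cross hv hvr)
  have hnoU : ∀ a ∈ US, ∀ b ∈ US, ¬ D.m a b ≠ 0 := by
    intro u hu w hw hne
    obtain ⟨a1, c1, rfl⟩ := (hUS u).1 hu
    obtain ⟨a2, c2, rfl⟩ := (hUS w).1 hw
    obtain ⟨x, y, hxy⟩ := D.exists_Nx hne
    have hne' := Drawing.Nx.ne D hxy
    have hseg := Drawing.Nx.seg D hxy
    rw [hpos, hpos] at hseg
    obtain ⟨e, he⟩ := (edges g).W_ne.1 hxy.1
    have hs : segment ℝ (pos p h x) (pos p h y) = segment ℝ (pos p h (src e)) (pos p h (tgt e)) := by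
      rcases he with ⟨q1, q2⟩ | ⟨q1, q2⟩
      · rw [← q1, ← q2]; rfl
      · rw [← q1, ← q2, segment_symm]; rfl
    rw [hs] at hseg
    have := corner_unique g e hseg.1 hseg.2
    exact hne' (by rw [this.1, this.2])
  have hsum : ∀ v, ∑ w ∈ D.V.filter (fun w => D.m v w ≠ 0), (w - v) / (‖w - v‖ : ℂ) =
      ∑ w ∈ D.V, (D.m v w : ℂ) * uv v w := by
    intro v
    rw [Finset.sum_filter]
    refine Finset.sum_congr rfl fun w _ => ?_
    by_cases h0 : D.m v w = 0
    · simp [h0]
    · have h1 : D.m v w = 1 := by have := hm1 v w; omega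
      rw [if_pos h0, h1]
      simp [uv]
  let G : GeodesicNet :=
    { V := D.V
      U := US
      Adj := fun a b => D.m a b ≠ 0
      U_subset := by
        intro v hv
        obtain ⟨a, c, rfl⟩ := (hUS v).1 hv
        exact D.pos_mem _
      symm := by
        intro a b hab
        rw [D.m_symm]; exact hab
      edge_ends := fun a b hab => D.edge_mem hab
      edges_meet := by
        intro a b c d hab hcd hne z hz hz'
        refine D.planar hab hcd ?_ hz hz'
        rintro (⟨h1, h2⟩ | ⟨h1, h2⟩)
        · exact hne (by rw [h1, h2])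
        · exact hne (by rw [h1, h2]; exact Sym2.eq_swap)
      no_vertex_inside := fun a b hab c hc => D.no_interior hab hc
      connected := D.connected (conn g)
      balanced := by
        intro v hv hvU
        have h1 := hbal v hv hvU
        rw [← hsum] at h1
        convert h1
      degree := by
        intro v hv hvU
        convert hdeg v hv hvU
      no_boundary_edge := hnoU }
  refine ⟨G, rfl, ?_⟩
  change M ≤ (D.V \ US).card
  have hsub : (Finset.univ : Finset (Fin (M + 1))).image (fun i => pos p h (.Y i true : Vx M)) ⊆ D.V \ US := by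
    intro v hv
    simp only [Finset.mem_image, Finset.mem_univ, true_and] at hv
    obtain ⟨i, rfl⟩ := hv
    rw [Finset.mem_sdiff]
    exact ⟨D.pos_mem _, hnotU _ (by simp)⟩
  have hc := Finset.card_le_card hsub
  rw [Finset.card_image_of_injective] at hc
  · simp at hc
    omega
  · intro i i' hii
    have := pos_inj g hii
    simpa using this

/-- There is a fixed set of four points such that, for every `N`, some geodesic net in the plane
(all edges of multiplicity one) has exactly these four unbalanced vertices and at least `N` balanced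
vertices. -/
theorem result : ∃ U : Finset ℂ, U.card = 4 ∧ ∀ N : ℕ, ∃ G : GeodesicNet, G.U = U ∧
    N ≤ (G.V \ G.U).card :=
  ⟨US, US_card, exists_net⟩

end Pool.Agent.Results.MP_b67b84_gt.Unbounded
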